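import Pool.Agent.helper95.SP.SpecCH
import Pool.Agent.helper64.TP.Basic

/-!
# sp:KSTEP. One block of the chain lemma
-/

namespace TP.K

open DP MeasureTheory

theorem STEP_ok (x : V) (m r : ℕ) (h : m ≤ r) : (Dfree true x m).ok true x r := by
  unfold Dat.ok Dfree
  simp only [if_true]
  refine ⟨fun _ v hv => ?_, fun _ v hv => ?_⟩
  · have : sd x v = m := hv
    show sd x v ≤ r
    omega
  · have : sd x v < m := hv
    show sd x v ≤ r
    omega

theorem STEP_pow {a b : ℕ} (h : a ≤ b) : 2 ^ a ≤ 2 ^ b := Nat.pow_le_pow_right (by norm_num) h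

/-- STEP. -/
theorem STEP (hGZ : GZ_stmt) (hBTH : BTH_stmt) (hUPP : UPP_stmt) (hLQ : LQ_stmt) (hWB : WB_stmt) :
    STEP_stmt := by
  intro C hC
  obtain ⟨c₄, hc₄, i₁, hgz⟩ := hGZ
  obtain ⟨Cb, hCb, i₂, hbth⟩ := hBTH
  obtain ⟨hL1, hL2, hL3, hL4, hL5, -⟩ := hLQ
  obtain ⟨w1, w2, w3, w4, w5, w6, w7, -⟩ := hWB
  refine ⟨c₄ ^ 2 / (Cb * C), by positivity, max (max i₁ i₂) 6, ?_⟩
  intro x t lo hi I Z w a hx ht hlo hlohi hI hZ hZ0 hw hw0 hS ha hB
  have ht1 : i₁ ≤ t := ((le_max_left _ _).trans (le_max_left _ _)).trans ht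
  have ht2 : i₂ ≤ t := ((le_max_right _ _).trans (le_max_left _ _)).trans ht
  have ht3 : 6 ≤ t := (le_max_right _ _).trans ht
  -- the weight
  have hZw : LocF (fun b => Z b * w b) (box x (2 ^ hi)) := by
    have h := (w4 Z w _ _ Set.univ ∅ hZ hw (Loc.univ _)).1
    refine w5 _ _ _ ?_ h
    rintro v (hv | hv)
    · have h1 : sd x v ≤ 2 ^ (lo - 3) := hv
      have h2 : 2 ^ (lo - 3) ≤ 2 ^ hi := STEP_pow (by omega)
      exact h1.trans h2
    · exact hv.2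
  have hZw0 : ∀ b, 0 ≤ Z b * w b := fun b => mul_nonneg (hZ0 b) (hw0 b)
  -- first gluing
  have g1 := hgz x (Dfree true x (2 ^ t)) (fun b => Z b * w b) (fun _ => 1) hi (I + 1) hx
    (by omega) (by omega) (STEP_ok x _ _ (STEP_pow (by omega))) hZw (w6 1 _) hZw0
    (fun _ => zero_le_one)
  simp only [mul_one] at g1
  rw [w1] at g1
  -- second gluing
  have g2 := hgz x (Dfree true x (2 ^ t)) Z w (lo - 3) (hi + 1) hx
    (by omega) (by omega) (STEP_ok x _ _ (STEP_pow (by omega))) hZ (by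
      rw [show lo - 3 + 3 = lo by omega]
      refine w5 _ _ _ ?_ hw
      intro v hv
      exact ⟨hv.1, hv.2.trans (STEP_pow (by omega))⟩) hZ0 hw0
  rw [show lo - 3 + 1 = lo - 2 by omega, show lo - 3 + 2 = lo - 1 by omega] at g2
  change c₄ * (EZ Z (S4 x t (lo - 2)) * EZ w (B4 x (lo - 1) (hi + 1))) ≤
    EZ (fun b => Z b * w b) (S4 x t (hi + 1)) at g2
  change c₄ * (EZ (fun b => Z b * w b) (S4 x t (hi + 1)) * Pr (B4 x (hi + 2) (I + 1))) ≤
    EZ (fun b => Z b * w b) (S4 x t (I + 1)) at g1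
  -- monotonicity
  have g3 : EZ (fun b => Z b * w b) (S4 x t (I + 1)) ≤ EZ (fun b => Z b * w b) (F4 x t I) := by
    refine w2 _ _ _ _ _ (ann x (2 ^ t) (2 ^ (I + 1))) hZw hZw (hL2 x t (I + 1) (by omega)) ?_ ?_
      hZw0 (fun b => le_rfl)
    · refine (hL1 x t I).mono ?_
      intro v hv
      exact ⟨hv.1, hv.2.trans (STEP_pow (by omega))⟩
    · exact (hL5 x t (I + 1) hx (by omega) (by omega)).trans
        (hL4 x t t I (I + 1) le_rfl (by omega) (by omega))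
  have g4 := hbth x (hi + 3) I hx (by omega) (by omega)
  rw [show hi + 3 - 1 = hi + 2 by omega] at g4
  have g5 := hUPP x t (lo - 3) lo hi I Z (by omega) (by omega) (by omega) hlohi (by omega) hZ hZ0
  set E0 := EZ Z (F4 x t I)
  set E1 := EZ (fun b => Z b * w b) (F4 x t I)
  set Sa := EZ Z (S4 x t (lo - 2)) with hSa
  set Fa := EZ Z (F4 x t (lo - 3))
  set P1' := Pr (F4 x lo hi) with hP1
  set P2' := Pr (F4 x (hi + 3) I) with hP2
  set Bw := EZ w (B4 x (lo - 1) (hi + 1))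
  set Pb := Pr (B4 x (hi + 2) (I + 1)) with hPb
  set M := EZ (fun b => Z b * w b) (S4 x t (hi + 1)) with hM
  have hSa0 : 0 ≤ Sa := w7 _ _ hZ0
  have hM0 : 0 ≤ M := w7 _ _ hZw0
  have hP10 : 0 ≤ P1' := measureReal_nonneg
  have hP20 : 0 ≤ P2' := measureReal_nonneg
  have hPb0 : 0 ≤ Pb := measureReal_nonneg
  -- lower bound of E1
  have k1 : c₄ * (c₄ * (Sa * (a * P1')) * Pb) ≤ E1 := by
    refine le_trans ?_ (g1.trans g3)
    refine mul_le_mul_of_nonneg_left ?_ hc₄.le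
    refine mul_le_mul_of_nonneg_right ?_ hPb0
    refine le_trans ?_ g2
    refine mul_le_mul_of_nonneg_left ?_ hc₄.le
    exact mul_le_mul_of_nonneg_left hB hSa0
  have k2 : c₄ ^ 2 * (Sa * (a * P1')) * P2' ≤ Cb * E1 := by
    have h1 : 0 ≤ c₄ ^ 2 * (Sa * (a * P1')) := by positivity
    calc c₄ ^ 2 * (Sa * (a * P1')) * P2' ≤ c₄ ^ 2 * (Sa * (a * P1')) * (Cb * Pb) :=
          mul_le_mul_of_nonneg_left g4 h1
      _ = Cb * (c₄ * (c₄ * (Sa * (a * P1')) * Pb)) := by ring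
      _ ≤ Cb * E1 := mul_le_mul_of_nonneg_left k1 hCb.le
  -- upper bound of E0
  have k3 : E0 ≤ C * Sa * (P1' * P2') :=
    g5.trans (mul_le_mul_of_nonneg_right hS (mul_nonneg hP10 hP20))
  have k4 : c₄ ^ 2 * a * E0 ≤ (Cb * C) * E1 := by
    calc c₄ ^ 2 * a * E0 ≤ c₄ ^ 2 * a * (C * Sa * (P1' * P2')) :=
          mul_le_mul_of_nonneg_left k3 (by positivity)
      _ = C * (c₄ ^ 2 * (Sa * (a * P1')) * P2') := by ring
      _ ≤ C * (Cb * E1) := mul_le_mul_of_nonneg_left k2 hC.le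
      _ = (Cb * C) * E1 := by ring
  have e1 : c₄ ^ 2 / (Cb * C) * a * E0 = (c₄ ^ 2 * a * E0) / (Cb * C) := by ring
  rw [e1, div_le_iff₀ (by positivity)]
  linarith

end TP.K
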